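import Mathlib

open Filter Topology Set Complex

namespace Pool.Agent.Results.MP_75022b_an.Counter

/-- Kummer's confluent hypergeometric function -/
noncomputable def M (a b z : ℂ) : ℂ :=
  ∑' k : ℕ, (ascPochhammer ℂ k).eval a / (ascPochhammer ℂ k).eval b / k.factorial * z ^ k

/-- the regular Coulomb wave function -/
noncomputable def F (L η ρ : ℝ) : ℂ :=
  ((2 : ℝ) ^ L * Real.exp (-Real.pi * η / 2) * ‖Gamma (L + 1 + I * η)‖ / Real.Gamma (2 * L + 2) : ℝ) *
    (ρ ^ (L + 1) : ℝ) * (exp (-I * ρ) * M (L + 1 - I * η) (2 * L + 2) (2 * I * ρ))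

def Ent (t : ℕ → ℂ) : Prop := ∀ R : ℝ, 0 < R → Summable fun k => ‖t k‖ * R ^ k
def D (t : ℕ → ℂ) (k : ℕ) : ℂ := (k + 1) * t (k + 1)
noncomputable def S (t : ℕ → ℂ) (z : ℂ) : ℂ := ∑' k, t k * z ^ k

variable {t : ℕ → ℂ}

lemma Ent.d (h : Ent t) : Ent (D t) := fun R hR => by
  refine .of_nonneg_of_le (fun _ => by positivity) (fun k => ?_)
    ((summable_nat_add_iff 1).2 (h (R + 1) (by positivity)))
  have : (k + 1) * R ^ k ≤ (R + 1) ^ (k + 1) := by
    induction k with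
    | zero => simp [hR.le]
    | succ k ih =>
      have := pow_le_pow_left₀ hR.le (le_add_of_nonneg_right zero_le_one) (k + 1)
      rw [pow_succ (R + 1), pow_succ R]
      rw [pow_succ R] at this
      push_cast; nlinarith [mul_le_mul_of_nonneg_right ih hR.le]
  rw [D, norm_mul, ← Nat.cast_succ, Complex.norm_natCast, mul_comm _ ‖_‖, mul_assoc]
  gcongr; exact_mod_cast this

lemma Ent.bd (z : ℂ) {R : ℝ} (hz : ‖z‖ < R) (k : ℕ) : ‖t k * z ^ k‖ ≤ ‖t k‖ * R ^ k := by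
  rw [norm_mul, norm_pow]; gcongr

lemma Ent.sum (h : Ent t) (z : ℂ) : HasSum (fun k => t k * z ^ k) (S t z) :=
  (Summable.of_norm_bounded (h _ (by positivity)) (Ent.bd z (lt_add_one _))).hasSum

lemma Ent.sum' (h : Ent t) (z : ℂ) : HasSum (fun k : ℕ => k * t k * z ^ k) (z * S (D t) z) := by
  rw [← hasSum_nat_add_iff' 1]
  simpa [D, pow_succ, mul_comm, mul_left_comm, mul_assoc] using (h.d.sum z).mul_left z

lemma Ent.der (h : Ent t) (z : ℂ) : HasDerivAt (S t) (S (D t) z) z := by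
  have hz : z ∈ Metric.ball (0 : ℂ) (‖z‖ + 1) := by simp
  have a := h (‖z‖ + 1) (by positivity)
  have b : ∀ k, DifferentiableOn ℂ (fun w => t k * w ^ k) (Metric.ball (0 : ℂ) (‖z‖ + 1)) := by fun_prop
  have c := fun k w (hw : w ∈ Metric.ball (0 : ℂ) (‖z‖ + 1)) => Ent.bd (t := t) w (by simpa using hw) k
  have := hasSum_deriv_of_summable_norm a b Metric.isOpen_ball c hz
  rw [← hasSum_nat_add_iff' 1] at this
  rw [(h.d.sum z).unique (by simpa [D, mul_comm, mul_left_comm, mul_assoc] using this)]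
  exact ((differentiableOn_tsum_of_summable_norm a b Metric.isOpen_ball c).differentiableAt
    (Metric.isOpen_ball.mem_nhds hz)).hasDerivAt

lemma ode (b η : ℝ) (hb : 0 < b) : ∃ φ φ' φ'' : ℝ → ℂ,
    (∀ x : ℝ, φ x = exp (-I * x) * M (b / 2 - I * η) b (2 * I * x)) ∧ φ 0 = 1 ∧
    (∀ x, HasDerivAt φ (φ' x) x) ∧ (∀ x, HasDerivAt φ' (φ'' x) x) ∧
    ∀ x : ℝ, x * φ'' x + b * φ' x + (x - 2 * η) * φ x = 0 := by
  set a := b / 2 - I * η
  let t := fun k => (ascPochhammer ℂ k).eval a / (ascPochhammer ℂ k).eval (b : ℂ) / k.factorial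
  have nz : ∀ k : ℕ, (b : ℂ) + k ≠ 0 := fun k => by exact_mod_cast (by positivity : b + k ≠ 0)
  have rc : ∀ k, (b + k) * D t k = (a + k) * t k := fun k => by
    have := nz k
    have : (k + 1 : ℂ) ≠ 0 := by exact_mod_cast k.succ_ne_zero
    simp only [D, t, ascPochhammer_succ_eval, Nat.factorial_succ]
    push_cast; field_simp
  have E : Ent t := fun R hR => by
    refine summable_of_ratio_norm_eventually_le (r := 1 / 2) (by norm_num) ?_
    filter_upwards [tendsto_natCast_atTop_atTop.eventually_ge_atTop (2 * (‖a‖ + 1) * R),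
      eventually_ge_atTop 1] with k h1 h2
    have h2 : (1 : ℝ) ≤ k := by exact_mod_cast h2
    have := congrArg norm (rc k)
    rw [D, norm_mul, norm_mul, norm_mul, ← Nat.cast_succ, Complex.norm_natCast, ← ofReal_natCast, ← ofReal_add,
      norm_real, Real.norm_of_nonneg (by positivity)] at this
    have h3 : ‖a + (k : ℝ)‖ ≤ (‖a‖ + 1) * k := by
      grw [norm_add_le, norm_real, Real.norm_natCast]; nlinarith [norm_nonneg a]
    have h4 : (k : ℝ) * (k * ‖t (k + 1)‖) ≤ k * ((‖a‖ + 1) * ‖t k‖) := by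
      grw [← mul_assoc (k : ℝ) (‖a‖ + 1), mul_comm (k : ℝ) (‖a‖ + 1), ← h3, ← this]
      push_cast; gcongr <;> linarith
    have h5 := le_of_mul_le_mul_left h4 (by positivity)
    rw [Real.norm_of_nonneg (by positivity), Real.norm_of_nonneg (by positivity), pow_succ,
      mul_comm (R ^ k) R, ← mul_assoc, ← mul_assoc]
    refine mul_le_mul_of_nonneg_right ?_ (by positivity)
    refine le_of_mul_le_mul_left ?_ (show (0 : ℝ) < k by positivity)
    nlinarith [norm_nonneg (t k), mul_le_mul_of_nonneg_right h5 hR.le]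
  have K : ∀ z, z * S (D (D t)) z + b * S (D t) z - z * S (D t) z - a * S t z = 0 := fun z => by
    refine ((((E.d.sum' z).add ((E.d.sum z).mul_left (b : ℂ))).sub (E.sum' z)).sub
      ((E.sum z).mul_left a)).unique ?_
    convert hasSum_zero with k
    linear_combination z ^ k * rc k
  have de : ∀ {s}, Ent s → ∀ x : ℝ, HasDerivAt (fun x : ℝ => exp (-I * x) * S s (2 * I * x))
      (-I * (exp (-I * x) * S s (2 * I * x)) + 2 * I * (exp (-I * x) * S (D s) (2 * I * x))) x :=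
    fun h x => by
      have := ((((hasDerivAt_id (x : ℂ)).const_mul (-I)).cexp).mul
        ((h.der _).comp (x : ℂ) ((hasDerivAt_id (x : ℂ)).const_mul (2 * I)))).comp_ofReal
      refine this.congr_deriv ?_
      simp only [id, Function.comp]; ring
  refine ⟨fun x => exp (-I * x) * S t (2 * I * x), _, _, fun _ => rfl, ?_, de E, fun x => ((de E x).const_mul _).add ((de E.d x).const_mul _),
    fun x => ?_⟩
  · simp [S, t, zero_pow_eq]
  · linear_combination 2 * I * exp (-I * x) * K (2 * I * x) +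
      (x - 2 * η) * exp (-I * x) * S t (2 * I * x) * I_sq

lemma wr {w w' : ℝ → ℝ} {b r : ℝ} (hb : 0 < b) (hw : ∀ x, HasDerivAt w (w' x) x)
    (h : ∀ x ∈ Ioo 0 r, 0 ≤ x * w' x + b * w x) : ∀ x ∈ Ioc 0 r, 0 ≤ w x := fun x hx => by
  have d : ∀ y ∈ Ioo 0 r, HasDerivAt (fun y => y ^ b * w y) (y ^ (b - 1) * (y * w' y + b * w y)) y :=
    fun y hy => ((Real.hasDerivAt_rpow_const (.inl hy.1.ne')).mul (hw y)).congr_deriv (by
      rw [Real.rpow_sub_one hy.1.ne']; field_simp [hy.1.ne']; ring)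
  have := monotoneOn_of_hasDerivWithinAt_nonneg (convex_Icc 0 r) (((Real.continuous_rpow_const hb.le).mul
    (continuous_iff_continuousAt.2 fun y => (hw y).continuousAt)).continuousOn)
    (fun y hy => (d y (by simpa using hy)).hasDerivWithinAt) (fun y hy => by
      rw [interior_Icc] at hy
      exact mul_nonneg (Real.rpow_nonneg hy.1.le _) (h y hy))
    ⟨le_rfl, hx.1.le.trans hx.2⟩ ⟨hx.1.le, hx.2⟩ hx.1.le
  simp only [Pi.mul_apply, Real.zero_rpow hb.ne', zero_mul] at this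
  exact nonneg_of_mul_nonneg_right this (Real.rpow_pos_of_pos hx.1 _)

lemma first {u : ℝ → ℝ} (hu : Continuous u) (h0 : u 0 = 1) {r : ℝ} (h : ∃ x ∈ Icc 0 r, u x ≤ 0) :
    ∃ z ∈ Ioc 0 r, u z = 0 ∧ ∀ x ∈ Ico 0 z, 0 < u x := by
  obtain ⟨z, ⟨hz, hz'⟩, H⟩ := (isCompact_Icc.inter_right (isClosed_le hu continuous_const)).exists_isLeast h
  have : ∀ x ∈ Ico 0 z, 0 < u x := fun x hx => lt_of_not_ge fun h =>
    hx.2.not_ge (H ⟨⟨hx.1, hx.2.le.trans hz.2⟩, h⟩)
  have z0 : 0 < z := hz.1.lt_of_ne (by rintro rfl; simp [h0] at hz'; linarith)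
  refine ⟨z, ⟨z0, hz.2⟩, le_antisymm hz' ?_, this⟩
  exact ge_of_tendsto (hu.continuousWithinAt (s := Iio z)).tendsto
    (mem_of_superset (Ico_mem_nhdsLT z0) fun x hx => (this x hx).le)

lemma quot {u u' v v' : ℝ → ℝ} {z : ℝ} (hu : ∀ x, HasDerivAt u (u' x) x) (hv : ∀ x, HasDerivAt v (v' x) x)
    (h : ∀ x ∈ Icc 0 z, 0 < v x) (H : ∀ x ∈ Ioc 0 z, 0 ≤ u' x * v x - u x * v' x) (hz : 0 ≤ z) :
    u 0 / v 0 ≤ u z / v z :=
  monotoneOn_of_hasDerivWithinAt_nonneg (convex_Icc 0 z)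
    (fun x hx => ((hu x).div (hv x) (h x hx).ne').continuousAt.continuousWithinAt)
    (fun x hx => ((hu x).div (hv x) (h x (interior_subset hx)).ne').hasDerivWithinAt)
    (fun x hx => div_nonneg (H x (Ioo_subset_Ioc_self (by simpa using hx))) (sq_nonneg _))
    ⟨le_rfl, hz⟩ ⟨hz, le_rfl⟩ hz

lemma ode' (b η : ℝ) (hb : 0 < b) : ∃ u u' u'' v v' v'' : ℝ → ℝ,
    (∀ x : ℝ, exp (-I * x) * M (b / 2 - I * η) b (2 * I * x) = ⟨u x, v x⟩) ∧ u 0 = 1 ∧ v 0 = 0 ∧
    (∀ x, HasDerivAt u (u' x) x) ∧ (∀ x, HasDerivAt u' (u'' x) x) ∧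
    (∀ x, HasDerivAt v (v' x) x) ∧ (∀ x, HasDerivAt v' (v'' x) x) ∧
    (∀ x : ℝ, x * u'' x + b * u' x + (x - 2 * η) * u x = 0) ∧
    ∀ x : ℝ, x * v'' x + b * v' x + (x - 2 * η) * v x = 0 := by
  obtain ⟨φ, φ', φ'', h1, h2, h3, h4, h5⟩ := ode b η hb
  exact ⟨fun x => (φ x).re, fun x => (φ' x).re, fun x => (φ'' x).re, fun x => (φ x).im,
    fun x => (φ' x).im, fun x => (φ'' x).im, fun x => (h1 x).symm, by simp [h2], by simp [h2],
    fun x => reCLM.hasFDerivAt.comp_hasDerivAt x (h3 x), fun x => reCLM.hasFDerivAt.comp_hasDerivAt x (h4 x),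
    fun x => imCLM.hasFDerivAt.comp_hasDerivAt x (h3 x), fun x => imCLM.hasFDerivAt.comp_hasDerivAt x (h4 x),
    fun x => by simpa using congrArg re (h5 x), fun x => by simpa using congrArg im (h5 x)⟩

lemma poly (a b c d e x : ℝ) : HasDerivAt (fun x : ℝ => a + b * x + c * x ^ 2 + d * x ^ 3 + e * x ^ 4)
    (b + 2 * c * x + 3 * d * x ^ 2 + 4 * e * x ^ 3 + 0 * x ^ 4) x :=
  ((((((hasDerivAt_id x).const_mul b).const_add a).add ((hasDerivAt_pow 2 x).const_mul c)).add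
    ((hasDerivAt_pow 3 x).const_mul d)).add ((hasDerivAt_pow 4 x).const_mul e)).congr_deriv (by simp; ring)

lemma bern {x : ℝ} (h : x ∈ Icc (0 : ℝ) 3) (i j : ℕ) : 0 ≤ x ^ i * (3 - x) ^ j :=
  mul_nonneg (pow_nonneg h.1 _) (pow_nonneg (sub_nonneg.2 h.2) _)

theorem result : ∃ η L₁ L₂ r : ℝ, -1 < L₁ ∧ L₁ < L₂ ∧ 0 < r ∧ F L₂ η r = 0 ∧
    ∀ ρ ∈ Ioc 0 r, F L₁ η ρ ≠ 0 := by
  have ct : ∀ {u u' : ℝ → ℝ}, (∀ x, HasDerivAt u (u' x) x) → Continuous u := fun h =>
    continuous_iff_continuousAt.2 fun y => (h y).continuousAt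
  obtain ⟨u, u', u'', v, v', v'', h1, u0, v0, du, du', dv, dv', eu, ev⟩ := ode' (1 / 2) (1 / 10) one_half_pos
  obtain ⟨z, hz, z0, hu⟩ := first (ct du) u0 (r := 3) (by
    by_contra! H
    have := wr one_half_pos (fun x => ((poly 14 (2 * -5) (3 * -4) (4 * 1) 0 x).mul (du x)).sub
      ((poly 30 14 (-5) (-4) 1 x).mul (du' x))) (r := 3) (fun x hx => by
        have b := bern (Ioo_subset_Icc_self hx)
        have : 0 ≤ x ^ 5 - 21 / 5 * x ^ 4 + 49 / 5 * x ^ 3 - 15 * x ^ 2 + 61 / 5 * x + 1 := by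
          linarith [b 0 6, b 1 5, b 2 4, b 3 3, b 4 2, b 5 1, b 6 0]
        simp only [Pi.mul_apply, Pi.sub_apply]
        linear_combination mul_nonneg (H x (Ioo_subset_Icc_self hx)).le this +
          (30 + 14 * x - 5 * x ^ 2 - 4 * x ^ 3 + x ^ 4) * eu x) 3 (by simp)
    norm_num at this
    linarith [H 3 (by simp)])
  have w1 := wr one_half_pos (fun x => ((dv' x).mul (du x)).sub ((dv x).mul (du' x))) (r := 3)
    fun x _ => by simp only [Pi.mul_apply, Pi.sub_apply]; linear_combination v x * eu x - u x * ev x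
  have w2 := wr one_half_pos (fun x => ((dv' x).neg.mul (du x)).sub ((dv x).neg.mul (du' x))) (r := 3)
    fun x _ => by
      simp only [Pi.mul_apply, Pi.sub_apply, Pi.neg_apply]; linear_combination u x * ev x - v x * eu x
  have vz : v z = 0 := by
    refine tendsto_nhds_unique_of_eventuallyEq ((ct dv).continuousWithinAt (s := Iio z)).tendsto
      tendsto_const_nhds (mem_of_superset (Ico_mem_nhdsLT hz.1) fun x hx => ?_)
    have p := fun y (hy : y ∈ Icc 0 x) => hu y ⟨hy.1, hy.2.trans_lt hx.2⟩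
    have q := fun y (hy : y ∈ Ioc 0 x) => (⟨hy.1, (hy.2.trans hx.2.le).trans hz.2⟩ : y ∈ Ioc 0 3)
    have a := quot dv du p (fun y hy => w1 y (q y hy)) hx.1
    have b := quot (fun y => (dv y).neg) du p (fun y hy => w2 y (q y hy)) hx.1
    simp only [Pi.neg_apply, v0, neg_div, zero_div, neg_zero, neg_nonneg] at a b
    simpa [(hu x hx).ne'] using le_antisymm b a
  refine ⟨1 / 10, -99 / 100, -3 / 4, z, by norm_num, by norm_num, hz.1, ?_, fun ρ hρ => ?_⟩
  · refine mul_eq_zero_of_right _ ?_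
    convert (h1 z).trans (show _ = 0 by rw [z0, vz]; rfl) using 3 <;> norm_num
  obtain ⟨u, u', u'', v, -, -, h1, u0, -, du, du', -, -, eu, -⟩ := ode' (1 / 50) (1 / 10) (by norm_num)
  refine mul_ne_zero (mul_ne_zero (ofReal_ne_zero.2 (ne_of_gt ?_))
    (ofReal_ne_zero.2 (Real.rpow_pos_of_pos hρ.1 _).ne')) fun H => ?_
  · have : Gamma ((-99 / 100 : ℝ) + 1 + I * (1 / 10 : ℝ)) ≠ 0 :=
      Gamma_ne_zero fun m h => by simpa using congrArg im h
    have := Real.Gamma_pos_of_pos (show (0 : ℝ) < 2 * (-99 / 100) + 2 by norm_num)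
    positivity
  have : u ρ = 0 := congrArg re ((h1 ρ).symm.trans (show _ = 0 by convert H using 3 <;> norm_num))
  obtain ⟨y, hy, y0, hu⟩ := first (ct du) u0 ⟨ρ, ⟨hρ.1.le, hρ.2.trans hz.2⟩, this.le⟩
  have := quot du (poly 10 60 0 (-13) 2) (fun x hx => by
    have b := bern ⟨hx.1, hx.2.trans hy.2⟩
    linarith [b 0 4, b 1 3, b 2 2, b 3 1, b 4 0, b 0 0]) (wr (b := 1 / 50) (by norm_num)
      (fun x => ((du' x).mul (poly 10 60 0 (-13) 2 x)).sub
        ((du x).mul (poly 60 (2 * 0) (3 * -13) (4 * 2) 0 x))) fun x hx => by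
          have b := bern ⟨hx.1.le, hx.2.le.trans hy.2⟩
          have : 0 ≤ -2 * x ^ 5 + 67 / 5 * x ^ 4 - 669 / 25 * x ^ 3 + 939 / 50 * x ^ 2 + 2 * x + 4 / 5 := by
            linarith [b 0 6, b 1 5, b 2 4, b 3 3, b 4 2, b 5 1, b 6 0]
          linear_combination mul_nonneg (hu x (Ioo_subset_Ico_self hx)).le this -
            (10 + 60 * x - 13 * x ^ 3 + 2 * x ^ 4) * eu x) hy.1.le
  norm_num [u0, y0] at this

end Pool.Agent.Results.MP_75022b_an.Counter
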